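import Pool.Agent.Helper27_UBT.Stmts

/-! # HER: finitely many extensions of bounded discriminant -/

open NumberField

namespace Pool.Agent.UBT51

theorem her : UBT.HerStmt := by
  intro K _ _ Δ
  have hfin := NumberField.finite_of_discr_bdd (AlgebraicClosure K) Δ
  set T : Set (IntermediateField ℚ (AlgebraicClosure K)) :=
    (fun F : { F : IntermediateField ℚ (AlgebraicClosure K) // FiniteDimensional ℚ F} => F.1) ''
    {F | haveI :  NumberField F := @NumberField.mk _ _ inferInstance F.prop
      |discr F| ≤ Δ } with hT
  have hTfin : T.Finite := hfin.image _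
  have hinj : Function.Injective (fun F : IntermediateField K (AlgebraicClosure K) =>
      F.restrictScalars ℚ) := IntermediateField.restrictScalars_injective ℚ
  have hS : ((fun F : IntermediateField K (AlgebraicClosure K) =>
      F.restrictScalars ℚ) ⁻¹' T).Finite := hTfin.preimage hinj.injOn
  refine ⟨hS.toFinset, ?_, ?_⟩
  · intro F hF
    rw [Set.Finite.mem_toFinset] at hF
    obtain ⟨F0, -, hF0⟩ := hF
    have hF1 : (F0 : IntermediateField ℚ (AlgebraicClosure K)) = F.restrictScalars ℚ := hF0
    have h1 : FiniteDimensional ℚ (F.restrictScalars ℚ) := by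
      rw [← hF1]
      exact F0.2
    have h2 : Module.Finite ℚ F := h1
    exact Module.Finite.of_restrictScalars_finite ℚ K F
  · intro L _ _ _ hL
    have halg : Algebra.IsAlgebraic K L := inferInstance
    let φ : L →ₐ[K] AlgebraicClosure K := IsAlgClosed.lift
    refine ⟨φ.fieldRange, ?_, ⟨?_⟩⟩
    · rw [Set.Finite.mem_toFinset, Set.mem_preimage]
      have e : L ≃ₐ[K] φ.fieldRange := AlgEquiv.ofInjectiveField φ
      have e' : L ≃ₐ[ℚ] (φ.fieldRange.restrictScalars ℚ : IntermediateField ℚ _) :=
        e.restrictScalars ℚ
      have hfd : FiniteDimensional ℚ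
          (φ.fieldRange.restrictScalars ℚ : IntermediateField ℚ (AlgebraicClosure K)) :=
        LinearEquiv.finiteDimensional e'.toLinearEquiv
      refine ⟨⟨φ.fieldRange.restrictScalars ℚ, hfd⟩, ?_, rfl⟩
      have : NumberField (φ.fieldRange.restrictScalars ℚ :
        IntermediateField ℚ (AlgebraicClosure K)) := @NumberField.mk _ _ inferInstance hfd
      have h3 := NumberField.discr_eq_discr_of_algEquiv L e'
      change |discr (φ.fieldRange.restrictScalars ℚ :
        IntermediateField ℚ (AlgebraicClosure K))| ≤ (Δ : ℤ)
      rw [← h3]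
      exact hL
    · exact AlgEquiv.ofInjectiveField φ

end Pool.Agent.UBT51
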