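import Pool.Agent.Helper27_UBT.Stmts

/-! # ISO: affine change of variables -/

open Polynomial
open H58Q

namespace Pool.Agent.UBT51

/-- the homomorphism `x ↦ u x + α`, `y ↦ s y` -/
noncomputable def chg {E : Type} [Field E] (F G : E[X]) (u s α : E)
    (h : C (s ^ 2) * G = F.comp (C u * X + C α)) : Q E F →+* Q E G where
  toFun z := ⟨z.re.comp (C u * X + C α), C s * z.im.comp (C u * X + C α)⟩
  map_one' := by
    ext1
    · change (1 : E[X]).comp (C u * X + C α) = 1
      simp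
    · change C s * (0 : E[X]).comp (C u * X + C α) = 0
      simp
  map_zero' := by
    ext1 <;> simp
  map_add' a b := by
    ext1
    · simp
    · simp [mul_add]
  map_mul' a b := by
    ext1
    · simp only [QuadraticAlgebra.re_mul, add_comp, mul_comp]
      rw [← h, C_pow]
      ring
    · simp only [QuadraticAlgebra.im_mul, add_comp, mul_comp, zero_comp]
      ring

theorem comp_inv {E : Type} [Field E] (q : E[X]) (u α : E) (hu : u ≠ 0) :
    (q.comp (C u * X + C α)).comp (C u⁻¹ * X + C (-(u⁻¹ * α))) = q := by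
  rw [comp_assoc]
  have : (C u * X + C α).comp (C u⁻¹ * X + C (-(u⁻¹ * α))) = (X : E[X]) := by
    simp only [add_comp, mul_comp, C_comp, X_comp]
    rw [mul_add, ← mul_assoc, ← C_mul, ← C_mul, mul_inv_cancel₀ hu, mul_neg, ← mul_assoc,
      mul_inv_cancel₀ hu]
    simp
  rw [this, comp_X]

theorem comp_inv' {E : Type} [Field E] (q : E[X]) (u α : E) (hu : u ≠ 0) :
    (q.comp (C u⁻¹ * X + C (-(u⁻¹ * α)))).comp (C u * X + C α) = q := by
  rw [comp_assoc]
  have : (C u⁻¹ * X + C (-(u⁻¹ * α))).comp (C u * X + C α) = (X : E[X]) := by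
    simp only [add_comp, mul_comp, C_comp, X_comp]
    rw [mul_add, ← mul_assoc, ← C_mul, ← C_mul, inv_mul_cancel₀ hu]
    simp
  rw [this, comp_X]

theorem iso : UBT.IsoStmt := by
  intro E _ F u s α hu hs
  set G : E[X] := C ((s ^ 2)⁻¹) * F.comp (C u * X + C α) with hG
  have h1 : C (s ^ 2) * G = F.comp (C u * X + C α) := by
    rw [hG, ← mul_assoc, ← C_mul, mul_inv_cancel₀ (pow_ne_zero 2 hs)]
    simp
  have h2 : C (s⁻¹ ^ 2) * F = G.comp (C u⁻¹ * X + C (-(u⁻¹ * α))) := by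
    rw [hG, mul_comp, C_comp, comp_inv _ _ _ hu, inv_pow]
  have hss : ∀ q : E[X], C s⁻¹ * (C s * q) = q := by
    intro q
    rw [← mul_assoc, ← C_mul, inv_mul_cancel₀ hs]
    simp
  have hss' : ∀ q : E[X], C s * (C s⁻¹ * q) = q := by
    intro q
    rw [← mul_assoc, ← C_mul, mul_inv_cancel₀ hs]
    simp
  refine ⟨RingEquiv.ofRingHom (chg F G u s α h1) (chg G F u⁻¹ s⁻¹ (-(u⁻¹ * α)) h2) ?_ ?_⟩
  · refine RingHom.ext fun z => ?_
    ext1
    · change (z.re.comp (C u⁻¹ * X + C (-(u⁻¹ * α)))).comp (C u * X + C α) = z.re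
      exact comp_inv' _ _ _ hu
    · change C s * (C s⁻¹ * z.im.comp (C u⁻¹ * X + C (-(u⁻¹ * α)))).comp (C u * X + C α) = z.im
      rw [mul_comp, C_comp, hss', comp_inv' _ _ _ hu]
  · refine RingHom.ext fun z => ?_
    ext1
    · change (z.re.comp (C u * X + C α)).comp (C u⁻¹ * X + C (-(u⁻¹ * α))) = z.re
      exact comp_inv _ _ _ hu
    · change C s⁻¹ * (C s * z.im.comp (C u * X + C α)).comp (C u⁻¹ * X + C (-(u⁻¹ * α))) = z.im
      rw [mul_comp, C_comp, hss, comp_inv _ _ _ hu]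

end Pool.Agent.UBT51
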